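import Pool.Agent.Helper94.GA.Goals

/-!
# MP_d69e80_al, packet GRD1: some `c` is always eligible.
-/

set_option autoImplicit false

open Finset Matrix
open scoped ComplexOrder

namespace Pool.Agent.Helper54.GA

open Pool.Agent.Helper94.GA

/-- `|u|² - u u*` is positive semidefinite. -/
lemma psd_cs {e : ℕ} (u : Fin e → ℂ) :
    ((((∑ i, ‖u i‖ ^ 2 : ℝ) : ℂ)) • (1 : Matrix (Fin e) (Fin e) ℂ) - vecMulVec u (star u)).PosSemidef := by
  apply PosSemidef.of_dotProduct_mulVec_nonneg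
  · apply IsHermitian.sub
    · have h : (1 : Matrix (Fin e) (Fin e) ℂ).IsHermitian := isHermitian_one
      unfold IsHermitian at *
      rw [conjTranspose_smul, h]
      simp
    · exact (posSemidef_vecMulVec_self_star u).isHermitian
  · intro x
    rw [sub_mulVec, smul_mulVec, one_mulVec, dotProduct_sub, dotProduct_smul, vecMulVec_mulVec]
    set c := star u ⬝ᵥ x with hc
    have h1 : star x ⬝ᵥ x = ((∑ i, ‖x i‖ ^ 2 : ℝ) : ℂ) := by
      simp only [dotProduct, Pi.star_apply, RCLike.star_def]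
      push_cast
      refine Finset.sum_congr rfl fun i _ => ?_
      rw [Complex.conj_mul']
    have h2 : star x ⬝ᵥ (MulOpposite.op c • u) = ((‖c‖ ^ 2 : ℝ) : ℂ) := by
      have h3 : star x ⬝ᵥ u = star c := by
        rw [hc, ← star_dotProduct_star, star_star, dotProduct_comm]
      rw [dotProduct_smul, h3]
      simp only [MulOpposite.smul_eq_mul_unop, MulOpposite.unop_op, RCLike.star_def]
      push_cast
      rw [Complex.conj_mul']
    rw [h1, h2]
    have h4 : ‖c‖ ^ 2 ≤ (∑ i, ‖u i‖ ^ 2) * ∑ i, ‖x i‖ ^ 2 := by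
      have h5 : ‖c‖ ≤ ∑ i, ‖u i‖ * ‖x i‖ := by
        rw [hc, dotProduct]
        refine (norm_sum_le _ _).trans (le_of_eq ?_)
        refine Finset.sum_congr rfl fun i _ => ?_
        rw [norm_mul, Pi.star_apply, norm_star]
      calc ‖c‖ ^ 2 ≤ (∑ i, ‖u i‖ * ‖x i‖) ^ 2 := pow_le_pow_left₀ (norm_nonneg _) h5 2
        _ ≤ _ := Finset.sum_mul_sq_le_sq_mul_sq _ _ _
    have h6 : (((∑ i, ‖u i‖ ^ 2 : ℝ) : ℂ)) • ((∑ i, ‖x i‖ ^ 2 : ℝ) : ℂ) - ((‖c‖ ^ 2 : ℝ) : ℂ) =
        (((∑ i, ‖u i‖ ^ 2) * (∑ i, ‖x i‖ ^ 2) - ‖c‖ ^ 2 : ℝ) : ℂ) := by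
      rw [smul_eq_mul]; push_cast; ring
    rw [h6]
    exact Complex.zero_le_real.2 (by linarith)

lemma nm_posDef {e : ℕ} {C : Type} [Fintype C] (lam : Fin e → ℂ) (v : C → Fin e → ℂ) {s : ℝ}
    (hs : 0 < s) (t : C → ℕ) : (Nm lam v s t).PosDef := by
  unfold Nm
  apply PosDef.add_posSemidef
  · have h : (1 : Matrix (Fin e) (Fin e) ℂ).PosDef := PosDef.one
    exact h.smul (Complex.zero_lt_real.2 hs)
  · refine posSemidef_sum _ fun c _ => posSemidef_sum _ fun l _ => ?_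
    refine (posSemidef_vecMulVec_self_star _).smul ?_
    exact Complex.zero_le_real.2 (by positivity)

lemma nm_succ {e : ℕ} {C : Type} [Fintype C] (lam : Fin e → ℂ) (v : C → Fin e → ℂ) (s : ℝ)
    (t : C → ℕ) : Nm lam v s (fun c => t c + 1) = Nm lam v s t +
      ∑ c, ((1 / (Fintype.card C : ℝ) : ℝ) : ℂ) •
        vecMulVec (wv lam v c (t c)) (star (wv lam v c (t c))) := by
  unfold Nm
  rw [add_assoc, ← Finset.sum_add_distrib]
  congr 1
  refine Finset.sum_congr rfl fun c _ => ?_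
  rw [Finset.sum_range_succ]

lemma nm_shift {e : ℕ} {C : Type} [Fintype C] (lam : Fin e → ℂ) (v : C → Fin e → ℂ) (s : ℝ)
    (t : C → ℕ) : diagonal lam * Nm lam v s t * (diagonal lam)ᴴ =
      Nm lam v s (fun c => t c + 1) +
      ((s : ℂ) • (diagonal lam * (diagonal lam)ᴴ - 1) -
        ∑ c, ((1 / (Fintype.card C : ℝ) : ℝ) : ℂ) • vecMulVec (v c) (star (v c))) := by
  unfold Nm
  have key : ∀ c l, diagonal lam * vecMulVec (wv lam v c l) (star (wv lam v c l)) * (diagonal lam)ᴴ =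
      vecMulVec (wv lam v c (l + 1)) (star (wv lam v c (l + 1))) := by
    intro c l
    ext i j
    simp only [diagonal_conjTranspose, mul_diagonal, diagonal_mul, vecMulVec_apply, wv,
      Pi.star_apply, star_mul', star_pow]
    ring
  have h0 : ∀ c, vecMulVec (wv lam v c 0) (star (wv lam v c 0)) = vecMulVec (v c) (star (v c)) := by
    intro c
    have : wv lam v c 0 = v c := by
      funext j; simp [wv]
    rw [this]
  simp only [Finset.sum_range_succ', h0, Finset.sum_add_distrib]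
  rw [Matrix.mul_add, Matrix.add_mul, Matrix.mul_sum, Matrix.sum_mul]
  have h1 : ∀ c, diagonal lam * (∑ l ∈ range (t c), ((1 / (Fintype.card C : ℝ) : ℝ) : ℂ) •
      vecMulVec (wv lam v c l) (star (wv lam v c l))) * (diagonal lam)ᴴ =
      ∑ l ∈ range (t c), ((1 / (Fintype.card C : ℝ) : ℝ) : ℂ) •
      vecMulVec (wv lam v c (l + 1)) (star (wv lam v c (l + 1))) := by
    intro c
    rw [Matrix.mul_sum, Matrix.sum_mul]
    refine Finset.sum_congr rfl fun l _ => ?_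
    rw [Matrix.mul_smul, Matrix.smul_mul, key]
  simp only [h1]
  rw [Matrix.mul_smul, Matrix.smul_mul, Matrix.mul_one, smul_sub]
  abel

lemma det_lam {e : ℕ} (lam : Fin e → ℂ) (N : Matrix (Fin e) (Fin e) ℂ) (h : N.det.im = 0) :
    (diagonal lam * N * (diagonal lam)ᴴ).det.re = (∏ j, ‖lam j‖) ^ 2 * N.det.re := by
  rw [det_mul, det_mul, det_conjTranspose, det_diagonal]
  have e1 : (∏ i, lam i) * N.det * star (∏ i, lam i) = (((∏ j, ‖lam j‖) ^ 2 : ℝ) : ℂ) * N.det := by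
    have : (∏ i, lam i) * star (∏ i, lam i) = (((∏ j, ‖lam j‖) ^ 2 : ℝ) : ℂ) := by
      rw [RCLike.star_def, Complex.mul_conj', norm_prod]
      push_cast
      rfl
    rw [← this]; ring
  rw [e1, Complex.re_ofReal_mul]

lemma tr_qa {e : ℕ} (N : Matrix (Fin e) (Fin e) ℂ) (z : Fin e → ℂ) :
    (N⁻¹ * vecMulVec z (star z)).trace.re = qa N z := by
  rw [qa, Matrix.mul_vecMulVec, trace_vecMulVec, dotProduct_comm]

theorem GRD1 (h1 : DET_stmt) (_h2 : RK1_stmt) : GRD1_stmt := by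
  intro e C _ _ lam v hlam
  set p : ℝ := 1 / (Fintype.card C : ℝ) with hp
  have hcard : 0 < (Fintype.card C : ℝ) := by exact_mod_cast Fintype.card_pos
  have hp0 : 0 < p := by positivity
  set V : ℝ := ∑ c, p * ∑ i, ‖v c i‖ ^ 2 with hV
  have hV0 : 0 ≤ V := Finset.sum_nonneg fun c _ => mul_nonneg hp0.le (Finset.sum_nonneg fun i _ => by positivity)
  have hl : ∀ j, 0 < ‖lam j‖ ^ 2 - 1 := fun j => by nlinarith [hlam j]
  set s : ℝ := 1 + ∑ j, V / (‖lam j‖ ^ 2 - 1) with hs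
  have hterm : ∀ j, 0 ≤ V / (‖lam j‖ ^ 2 - 1) := fun j => div_nonneg hV0 (hl j).le
  have hs0 : 0 < s := by
    have := Finset.sum_nonneg (s := univ) fun j _ => hterm j
    rw [hs]; linarith
  have hsj : ∀ j, V ≤ s * (‖lam j‖ ^ 2 - 1) := by
    intro j
    have h3 : V / (‖lam j‖ ^ 2 - 1) ≤ ∑ j, V / (‖lam j‖ ^ 2 - 1) :=
      Finset.single_le_sum (fun j _ => hterm j) (mem_univ j)
    have h4 : V / (‖lam j‖ ^ 2 - 1) ≤ s := by rw [hs]; linarith
    rwa [div_le_iff₀ (hl j)] at h4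
  refine ⟨s, hs0, fun t => ?_⟩
  -- the matrix P
  have hP : ((s : ℂ) • (diagonal lam * (diagonal lam)ᴴ - 1) -
        ∑ c, ((p : ℝ) : ℂ) • vecMulVec (v c) (star (v c))).PosSemidef := by
    have e1 : (s : ℂ) • (diagonal lam * (diagonal lam)ᴴ - 1) -
        ∑ c, ((p : ℝ) : ℂ) • vecMulVec (v c) (star (v c)) =
        diagonal (fun j => ((s * (‖lam j‖ ^ 2 - 1) - V : ℝ) : ℂ)) +
        ∑ c, ((p : ℝ) : ℂ) • ((((∑ i, ‖v c i‖ ^ 2 : ℝ) : ℂ)) • (1 : Matrix (Fin e) (Fin e) ℂ) -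
          vecMulVec (v c) (star (v c))) := by
      simp only [smul_sub, Finset.sum_sub_distrib]
      have e2 : (s : ℂ) • (diagonal lam * (diagonal lam)ᴴ) - (s : ℂ) • (1 : Matrix (Fin e) (Fin e) ℂ) =
          diagonal (fun j => ((s * (‖lam j‖ ^ 2 - 1) - V : ℝ) : ℂ)) +
          ∑ c, ((p : ℝ) : ℂ) • (((∑ i, ‖v c i‖ ^ 2 : ℝ) : ℂ)) • (1 : Matrix (Fin e) (Fin e) ℂ) := by
        have e3 : ∑ c, ((p : ℝ) : ℂ) • (((∑ i, ‖v c i‖ ^ 2 : ℝ) : ℂ)) • (1 : Matrix (Fin e) (Fin e) ℂ) =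
            ((V : ℝ) : ℂ) • (1 : Matrix (Fin e) (Fin e) ℂ) := by
          simp only [smul_smul]
          rw [← Finset.sum_smul, hV]
          push_cast
          rfl
        rw [e3, diagonal_conjTranspose, diagonal_mul_diagonal]
        ext i j
        by_cases hij : i = j
        · subst hij
          simp only [Matrix.sub_apply, Matrix.smul_apply, diagonal_apply_eq, one_apply_eq, Matrix.add_apply,
            Pi.star_apply, RCLike.star_def, smul_eq_mul]
          rw [Complex.mul_conj']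
          push_cast
          ring
        · simp [hij]
      rw [e2]
      abel
    rw [e1]
    apply PosSemidef.add
    · apply PosSemidef.diagonal
      intro j
      exact Complex.zero_le_real.2 (by linarith [hsj j])
    · exact posSemidef_sum _ fun c _ => (psd_cs (v c)).smul (Complex.zero_le_real.2 hp0.le)
  have hN := nm_posDef lam v hs0 t
  have hN1 := nm_posDef lam v hs0 (fun c => t c + 1)
  obtain ⟨-, -, a3, a4⟩ := h1 e _ _ hN1 hP
  obtain ⟨b1, b2, -, b4⟩ := h1 e _ (∑ c, ((p : ℝ) : ℂ) •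
        vecMulVec (wv lam v c (t c)) (star (wv lam v c (t c)))) hN
    (posSemidef_sum _ fun c _ => (posSemidef_vecMulVec_self_star _).smul
      (Complex.zero_le_real.2 hp0.le))
  obtain ⟨c1, -, -, -⟩ := h1 e _ _ hN1 hP
  rw [← nm_shift, det_lam _ _ b2] at a4
  rw [← nm_succ] at b4
  have d1 : (Nm lam v s (fun c => t c + 1)).det.re ≤ (∏ j, ‖lam j‖) ^ 2 * (Nm lam v s t).det.re := by
    nlinarith
  have d2 : ((Nm lam v s t)⁻¹ * ∑ c, ((p : ℝ) : ℂ) •
        vecMulVec (wv lam v c (t c)) (star (wv lam v c (t c)))).trace.re =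
      ∑ c, p * qa (Nm lam v s t) (wv lam v c (t c)) := by
    rw [Matrix.mul_sum, trace_sum, Complex.re_sum]
    refine Finset.sum_congr rfl fun c _ => ?_
    rw [Matrix.mul_smul, trace_smul, smul_eq_mul, Complex.re_ofReal_mul, tr_qa]
  rw [d2] at b4
  have d3 : (Nm lam v s t).det.re * (1 + ∑ c, p * qa (Nm lam v s t) (wv lam v c (t c))) ≤
      (Nm lam v s t).det.re * (∏ j, ‖lam j‖) ^ 2 := by linarith
  have d4 : 1 + ∑ c, p * qa (Nm lam v s t) (wv lam v c (t c)) ≤ (∏ j, ‖lam j‖) ^ 2 :=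
    le_of_mul_le_mul_left d3 b1
  by_contra hc
  push Not at hc
  have d5 : ∑ _c : C, p * ((∏ j, ‖lam j‖) ^ 2 - 1) < ∑ c, p * qa (Nm lam v s t) (wv lam v c (t c)) :=
    Finset.sum_lt_sum_of_nonempty univ_nonempty fun c _ => mul_lt_mul_of_pos_left (hc c) hp0
  have d6 : ∑ _c : C, p * ((∏ j, ‖lam j‖) ^ 2 - 1) = (∏ j, ‖lam j‖) ^ 2 - 1 := by
    rw [Finset.sum_const, card_univ, nsmul_eq_mul, hp]
    field_simp
  linarith

end Pool.Agent.Helper54.GA
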